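import Pool.Agent.V11237.LP.Window

set_option autoImplicit false

/-!
# The almost prime form of `ρ(k) = max h_m(k)`, with one prime

Let `h_m(k)` be the number of the integers in `(m, m + k]` without prime factor `≤ k`. For every `k` and
`m`, every `n` in `(m, m + k]` without prime factor `≤ k`, and all large `r` and `N`: the number of the
`x` in `(u, u + Y]` for which `M x + n` (`M` the product of the primes `≤ k`) is PRIME and the window
`(M x + m, M x + m + k]` contains `h_m(k)` integers without prime factor `≤ N ^ (1 / r)` is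
`(Y / log X) (V / U)` up to a factor `1 ± ε`, `X ≥ N ^ θ`, `u + Y ≤ X`, `Y ≥ δ X`; and the next such
windows follow a Poisson law. No window of length `k` contains more than `max h_m(k)` such integers,
all primes of a window are among them, and they have at most `r` prime factors.
-/

namespace Pool.Agent.Results.MP_cbf366_nt.FullWindows

open Finset
open Pool.Agent.V11237.LP.Window

/-- **Full windows**: the places which the primes up to `k` leave free in a window of length `k` are all
taken by integers with at most `r` prime factors, all larger than `N ^ (1 / r)`, one of them a prime,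
with the asymptotic number of such windows and the Poisson law. -/
theorem result (k m : ℕ) (hk : 1 ≤ k) (c : ℕ) (θ δ : ℝ) (hθ : 0 < θ) (hδ : 0 < δ) (hδ1 : δ ≤ 1) (x₀ ε : ℝ)
    (hε : 0 < ε) (hε1 : ε ≤ 1) :
    ∃ r₀ : ℕ, 2 ≤ r₀ ∧ ∀ r : ℕ, r₀ ≤ r → ∃ N₀ : ℕ, ∀ N : ℕ, N₀ ≤ N →
      (∀ n : ℕ, n ≤ c * N → Rough N r n → n.primeFactorsList.length ≤ r) ∧
      (∀ w : ℕ, R N r k w ≤ h k w) ∧
      (∀ w : ℕ, (N : ℝ) ^ (1 / (r : ℝ)) ≤ w →
        Nat.primeCounting (w + k) ≤ Nat.primeCounting w + R N r k w) ∧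
      0 < V k (h k m) N r ∧
      ∀ n ∈ places k m, ∀ X : ℕ, (N : ℝ) ^ θ ≤ X → ∀ u Y : ℕ, δ * X ≤ Y → u + Y ≤ X →
        |((W k m n N r u Y).card : ℝ) * Real.log X - Y * (V k (h k m) N r / U N r)| ≤
          ε * (Y * (V k (h k m) N r / U N r)) ∧
        ∀ T : ℕ, T * V k (h k m) N r ≤ x₀ → ∀ S : Finset ℕ,
        |(((W k m n N r u Y).filter (fun x => Next k m N r T x ∈ S)).card : ℝ) -
          (W k m n N r u Y).card *
            ∑ j ∈ S, Real.exp (-(T * V k (h k m) N r)) * (T * V k (h k m) N r) ^ j / j.factorial| ≤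
          ε * (W k m n N r u Y).card := by
  obtain ⟨r0, hr0, h0⟩ := full k m hk θ δ hθ hδ hδ1 x₀ ε hε hε1
  refine ⟨r0, hr0, ?_⟩
  intro r hr
  obtain ⟨N1, hN1⟩ := h0 r hr
  obtain ⟨N2, hN2⟩ := few c r (hr0.trans hr)
  refine ⟨max N1 N2, ?_⟩
  intro N hN
  obtain ⟨g1, g2, g3⟩ := hN1 N ((le_max_left _ _).trans hN)
  exact ⟨hN2 N ((le_max_right _ _).trans hN), fun w => R_le N r k w g1, fun w hw => primes_le N r k w hw,
    g2, g3⟩

end Pool.Agent.Results.MP_cbf366_nt.FullWindows
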