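import Pool.Agent.V11249.NP.Reg
import Pool.Agent.V11249.NP.Fam

/-!
# Windows of length `k` with the maximal number of almost primes: regular distribution in all short intervals

Let `M` be the product of the primes `≤ k`. The windows `(M y + m, M y + m + k]` contain at most `h_m(k)` integers without
prime factors `≤ k`; call `y` full if all these `h_m(k)` integers are almost primes. In all intervals `(X, X + Y]`,
`Y ≥ X ^ θ`, a positive proportion of all integers `x` is regular: every window around `x` of length between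
`K log ^ h X`, `h = h_m(k)`, and `Y` contains the right order of full `y`, and around `x` their density is constant at
all but boundedly many scales.
-/

set_option autoImplicit false

open Finset Filter Polynomial

namespace Pool.Agent.Results.MP_cbf366_nt.RegularWindows

open Classical in
/-- the integers of `(m, m + k]` without prime factors `≤ k` -/
noncomputable def free (m k : ℕ) : Finset ℕ := (Ioc m (m + k)).filter (fun n => ∀ p : ℕ, p.Prime → p ≤ k → ¬ p ∣ n)

/-- the number `h_m(k)` of the problem -/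
noncomputable def h (m k : ℕ) : ℕ := (free m k).card

/-- the product of the primes `≤ k` -/
def M (k : ℕ) : ℕ := ∏ p ∈ (Icc 1 k).filter Nat.Prime, p

/-- `n` has at most `r` prime factors (with multiplicity), all larger than `z` -/
def Almost (r : ℕ) (z : ℝ) (n : ℕ) : Prop := n.primeFactorsList.length ≤ r ∧ ∀ q : ℕ, q.Prime → q ∣ n → z < q

/-- the `h_m(k)` integers of `(M y + m, M y + m + k]` without prime factors `≤ k` are almost primes -/
def Full (m k r : ℕ) (z : ℝ) (y : ℕ) : Prop := ∀ j ∈ free m k, Almost r z (M k * y + j)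

open Classical in
/-- the number of the full `y` in `(a, b]`, the prime factors being larger than `X ^ (1 / r)` -/
noncomputable def cnt (m k r X a b : ℕ) : ℕ :=
  ((Ioc a b).filter (fun y => Full m k r ((X : ℝ) ^ (1 / (r : ℝ))) y)).card

/-- all windows `(a, b]` around `x`, of length between `K log ^ h X` and `Y`, contain the right order of full `y` -/
def Regular (m k r : ℕ) (c₁ c₂ K : ℝ) (X Y x : ℕ) : Prop :=
  ∀ a b : ℕ, a ≤ x → x ≤ b → K * Real.log X ^ h m k ≤ (b : ℝ) - a → (b : ℝ) - a ≤ Y →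
    c₁ * ((b : ℝ) - a) / Real.log X ^ h m k ≤ (cnt m k r X a b : ℝ) ∧
    (cnt m k r X a b : ℝ) ≤ c₂ * ((b : ℝ) - a) / Real.log X ^ h m k

/-- the density is constant on `[x - 2 ^ j, x + 2 ^ j]`, up to `δ` -/
def Constant (m k r : ℕ) (c₁ c₂ δ : ℝ) (X x j : ℕ) : Prop :=
  ∃ lam : ℝ, c₁ ≤ lam ∧ lam ≤ c₂ ∧ ∀ u v : ℕ, x ≤ u + 2 ^ j → u ≤ v → v ≤ x + 2 ^ j →
    |(cnt m k r X u v : ℝ) - lam * ((v : ℝ) - u) / Real.log X ^ h m k| ≤ δ * 2 ^ j / Real.log X ^ h m k

open Classical in
/-- the number of the scales `2 ^ j` between `log ^ h X` and `Y` at which the density is not constant -/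
noncomputable def badScales (m k r : ℕ) (c₁ c₂ δ : ℝ) (X Y x : ℕ) : ℕ :=
  ((range (Nat.log 2 Y + 1)).filter (fun j => Real.log X ^ h m k ≤ (2 : ℝ) ^ j ∧
    ¬ Constant m k r c₁ c₂ δ X x j)).card

theorem dvd_M {k p : ℕ} (hp : p.Prime) : p ∣ M k ↔ p ≤ k := by
  unfold M
  rw [Prime.dvd_finsetProd_iff hp.prime]
  constructor
  · rintro ⟨q, hq, hd⟩
    rw [mem_filter, mem_Icc] at hq
    rw [(Nat.prime_dvd_prime_iff_eq hp hq.2).1 hd]
    exact hq.1.2
  · intro h
    exact ⟨p, by rw [mem_filter, mem_Icc]; exact ⟨⟨hp.pos, h⟩, hp⟩, dvd_rfl⟩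

theorem M_pos (k : ℕ) : 0 < M k := Finset.prod_pos fun _ hp => (mem_filter.1 hp).2.pos

open Classical in
theorem mem_free {m k j : ℕ} : j ∈ free m k ↔ (m < j ∧ j ≤ m + k) ∧ ∀ p : ℕ, p.Prime → p ≤ k → ¬ p ∣ j := by
  unfold free
  rw [mem_filter, mem_Ioc]

theorem coprime_M {m k j : ℕ} (hj : j ∈ free m k) : Nat.Coprime (M k) j := by
  rw [Nat.coprime_iff_gcd_eq_one]
  by_contra hne
  obtain ⟨q, hq, hq1, hq2⟩ := Nat.Prime.not_coprime_iff_dvd.1 hne
  exact (mem_free.1 hj).2 q hq ((dvd_M hq).1 hq1) hq2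

/-- the enumeration of the free places -/
noncomputable def e (m k : ℕ) (i : Fin (h m k)) : ℕ := ((free m k).equivFin.symm i : ℕ)

theorem e_mem (m k : ℕ) (i : Fin (h m k)) : e m k i ∈ free m k := ((free m k).equivFin.symm i).2

theorem e_inj (m k : ℕ) : Function.Injective (e m k) := fun i j hij => by
  have h1 : (free m k).equivFin.symm i = (free m k).equivFin.symm j := Subtype.ext hij
  exact (free m k).equivFin.symm.injective h1

theorem e_surj {m k j : ℕ} (hj : j ∈ free m k) : ∃ i, e m k i = j := by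
  refine ⟨(free m k).equivFin ⟨j, hj⟩, ?_⟩
  show (((free m k).equivFin.symm ((free m k).equivFin ⟨j, hj⟩) : _) : ℕ) = j
  rw [Equiv.symm_apply_apply]

/-- the system -/
noncomputable def F (m k : ℕ) : Fin (h m k) → ℤ[X] :=
  fun i => Pool.Agent.TH464.PW.quad 0 (M k) ((e m k i : ℕ) : ℤ)

theorem Fe (m k : ℕ) (i : Fin (h m k)) : F m k i = C ((M k : ℕ) : ℤ) * X + C ((e m k i : ℕ) : ℤ) := by
  unfold F Pool.Agent.TH464.PW.quad
  simp

theorem ev (m k : ℕ) (i : Fin (h m k)) (y : ℕ) : (F m k i).eval (y : ℤ) = ((M k * y + e m k i : ℕ) : ℤ) := by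
  rw [Fe]
  simp

theorem sys (m k : ℕ) : Pool.Agent.W123.RU.Poly.Sys (F m k) := by
  have hM : ((M k : ℕ) : ℤ) ≠ 0 := by exact_mod_cast (M_pos k).ne'
  have hM' : (0 : ℤ) < ((M k : ℕ) : ℤ) := by exact_mod_cast M_pos k
  refine ⟨?_, ?_, ?_, ?_, ?_⟩
  · intro i
    refine Pool.Agent.V11249.NP.lin_irr _ _ hM ?_
    have := coprime_M (e_mem m k i)
    rw [Int.gcd_natCast_natCast]
    exact this
  · intro i
    rw [Fe, natDegree_linear hM]
    norm_num
  · intro i
    rw [Fe, leadingCoeff_linear hM]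
    exact hM'
  · intro i j hij
    have h1 : (F m k i).eval ((0 : ℕ) : ℤ) = (F m k j).eval ((0 : ℕ) : ℤ) := by rw [hij]
    rw [ev, ev] at h1
    have h2 : e m k i = e m k j := by
      have : M k * 0 + e m k i = M k * 0 + e m k j := by exact_mod_cast h1
      omega
    exact e_inj m k h2
  · intro p hp
    rcases Nat.lt_or_ge k p with hkp | hkp
    · -- `M x ≡ - m` modulo `p`
      have : Fact p.Prime := ⟨hp⟩
      have hMp : ((M k : ℕ) : ZMod p) ≠ 0 := by
        intro h0
        rw [ZMod.natCast_eq_zero_iff] at h0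
        have := (dvd_M hp).1 h0
        omega
      refine ⟨((-(m : ZMod p)) * ((M k : ℕ) : ZMod p)⁻¹).val, fun i hd => ?_⟩
      rw [ev] at hd
      have hd' : p ∣ M k * ((-(m : ZMod p)) * ((M k : ℕ) : ZMod p)⁻¹).val + e m k i := Int.natCast_dvd_natCast.1 hd
      rw [← ZMod.natCast_eq_zero_iff] at hd'
      push_cast at hd'
      rw [ZMod.natCast_zmod_val] at hd'
      have e1 : ((M k : ℕ) : ZMod p) * ((-(m : ZMod p)) * ((M k : ℕ) : ZMod p)⁻¹) = -(m : ZMod p) := by
        field_simp
      rw [e1] at hd'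
      obtain ⟨⟨h1, h2⟩, -⟩ := mem_free.1 (e_mem m k i)
      have e2 : ((e m k i - m : ℕ) : ZMod p) = 0 := by
        rw [Nat.cast_sub h1.le]
        linear_combination hd'
      rw [ZMod.natCast_eq_zero_iff] at e2
      have := Nat.le_of_dvd (by omega) e2
      omega
    · refine ⟨0, fun i hd => ?_⟩
      rw [ev] at hd
      have hd' : p ∣ M k * 0 + e m k i := Int.natCast_dvd_natCast.1 hd
      rw [mul_zero, zero_add] at hd'
      exact (mem_free.1 (e_mem m k i)).2 p hp hkp hd'

theorem iff_almost (m k r : ℕ) (z : ℝ) (y : ℕ) :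
    Full m k r z y ↔ Pool.Agent.TH464.PW.Almost (F m k) r z y := by
  unfold Full Almost Pool.Agent.TH464.PW.Almost
  constructor
  · intro H i
    rw [ev, Int.natAbs_natCast]
    have h1 := H _ (e_mem m k i)
    refine ⟨h1.1, fun q hq hd => h1.2 q hq (Int.natCast_dvd_natCast.1 hd)⟩
  · intro H j hj
    obtain ⟨i, rfl⟩ := e_surj hj
    have h1 := H i
    rw [ev, Int.natAbs_natCast] at h1
    refine ⟨h1.1, fun q hq hd => h1.2 q hq (Int.natCast_dvd_natCast.2 hd)⟩

open Classical in
/-- the meaning of `Full` -/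
theorem full_iff (m k r : ℕ) (z : ℝ) (hz : (k : ℝ) ≤ z) (y : ℕ) :
    ((Ioc (M k * y + m) (M k * y + m + k)).filter (fun n => Almost r z n)).card ≤ h m k ∧
    (((Ioc (M k * y + m) (M k * y + m + k)).filter (fun n => Almost r z n)).card = h m k ↔ Full m k r z y) := by
  have hB : ((free m k).image (fun j => M k * y + j)).card = h m k := by
    rw [card_image_of_injective _ (fun a b hab => by simpa using hab)]
    rfl
  have hsub : (Ioc (M k * y + m) (M k * y + m + k)).filter (fun n => Almost r z n) ⊆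
      (free m k).image (fun j => M k * y + j) := by
    intro n hn
    rw [mem_filter, mem_Ioc] at hn
    rw [mem_image]
    refine ⟨n - M k * y, mem_free.2 ⟨by omega, fun p hp hpk hd => ?_⟩, by omega⟩
    have h1 : p ∣ M k * y := ((dvd_M hp).2 hpk).mul_right y
    have h2 : p ∣ n := by
      have h3 := dvd_add h1 hd
      have h4 : M k * y + (n - M k * y) = n := by omega
      rwa [h4] at h3
    have h5 := hn.2.2 p hp h2
    have h6 : (p : ℝ) ≤ k := by exact_mod_cast hpk
    linarith
  rw [← hB]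
  refine ⟨card_le_card hsub, ?_⟩
  constructor
  · intro H
    have heq := eq_of_subset_of_card_le hsub H.ge
    intro j hj
    have h1 : M k * y + j ∈ (free m k).image (fun j => M k * y + j) := mem_image.2 ⟨j, hj, rfl⟩
    rw [← heq, mem_filter] at h1
    exact h1.2
  · intro H
    congr 1
    refine Subset.antisymm hsub ?_
    intro n hn
    rw [mem_image] at hn
    obtain ⟨j, hj, rfl⟩ := hn
    rw [mem_filter, mem_Ioc]
    have := (mem_free.1 hj).1
    exact ⟨by omega, H j hj⟩

open Classical in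
/-- Let `h_m(k) ≥ 1`. (0) For `z ≥ k` every window `(M y + m, M y + m + k]` contains at most `h_m(k)` integers with at
most `r` prime factors, all larger than `z`, and exactly `h_m(k)` of them if and only if `y` is full. (1) For
`0 < θ ≤ 1` there are `r` and `c₁, c₂, K, κ > 0` such that for every `δ > 0` there is `B` such that for all large `X` and
all `X ^ θ ≤ Y ≤ X`: at least `κ Y` of the `x` in `(X, X + Y]` are regular and have at most `B` scales at which the
density is not constant up to `δ`. -/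
theorem result (m k : ℕ) (hh : 0 < h m k) (θ : ℝ) (hθ : 0 < θ) (hθ1 : θ ≤ 1) :
    (∀ (r : ℕ) (z : ℝ), (k : ℝ) ≤ z → ∀ y : ℕ,
      ((Ioc (M k * y + m) (M k * y + m + k)).filter (fun n => Almost r z n)).card ≤ h m k ∧
      (((Ioc (M k * y + m) (M k * y + m + k)).filter (fun n => Almost r z n)).card = h m k ↔ Full m k r z y)) ∧
    ∃ (r : ℕ) (c₁ c₂ K κ : ℝ), 0 < c₁ ∧ 0 < c₂ ∧ 0 < K ∧ 0 < κ ∧ ∀ δ : ℝ, 0 < δ → ∃ B : ℕ,
      ∀ᶠ X : ℕ in atTop, ∀ Y : ℕ, (X : ℝ) ^ θ ≤ Y → Y ≤ X →
        κ * Y ≤ (((Ioc X (X + Y)).filter (fun x =>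
          Regular m k r c₁ c₂ K X Y x ∧ badScales m k r c₁ c₂ δ X Y x ≤ B)).card : ℝ) := by
  refine ⟨fun r z hz y => full_iff m k r z hz y, ?_⟩
  exact Pool.Agent.V11249.NP.reg_win (g := h m k) hh (F m k) (sys m k) (Full m k) (iff_almost m k) θ hθ hθ1

end Pool.Agent.Results.MP_cbf366_nt.RegularWindows
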