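import Pool.Agent.V11237.LP.PtShort
import Pool.Agent.Results.MP_cbf366_nt.RegularWindows

/-!
# Windows of length `k` with the maximal number of almost primes: gap laws in all short intervals

Let `k ≥ 3`, `M` the product of the primes `≤ k`. A window `(n, n + k]` with `n ≡ m` modulo `M` contains at most `h_m(k)`
integers without prime factors `≤ N ^ (1 / r)`; call `n` full if it contains `h_m(k)` of them. In EVERY interval of
length `Y ≥ N ^ θ` the full `n` have the expected number and the gaps between them follow the exponential and Gamma laws.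
-/

set_option autoImplicit false

open Finset

namespace Pool.Agent.Results.MP_cbf366_nt.ShortIntervalLaws

open Pool.Agent.Results.MP_cbf366_nt.RegularWindows (M free h e e_mem e_inj e_surj mem_free dvd_M M_pos coprime_M)

open Classical in
/-- the number of the integers in `(n, n + k]` without prime factors `≤ N ^ (1 / r)` -/
noncomputable def R (k N r n : ℕ) : ℕ :=
  ((Ioc n (n + k)).filter (fun l => ∀ q : ℕ, q.Prime → (q : ℝ) ≤ (N : ℝ) ^ (1 / (r : ℝ)) → ¬ q ∣ l)).card

/-- `n ≡ m` modulo `M`, and the window `(n, n + k]` contains `h_m(k)` integers without prime factors `≤ N ^ (1 / r)` -/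
def Full (m k N r n : ℕ) : Prop := n % M k = m % M k ∧ R k N r n = h m k

open Classical in
/-- the number of the full `n` in `(u, u + Y]` with fewer than `l` full integers in `[n - T, n)` -/
noncomputable def GS (m k N r l T u Y : ℕ) : ℕ :=
  ((Ioc u (u + Y)).filter (fun n => Full m k N r n ∧
    ((Ico (n - T) n).filter (fun s => Full m k N r s)).card < l)).card

/-- the product of `1 - h_m(k) / q` over the primes `k < q ≤ N ^ (1 / r)`, divided by `M` -/
noncomputable def V (m k N r : ℕ) : ℝ :=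
  (∏ q ∈ (Ioc k ⌊(N : ℝ) ^ (1 / (r : ℝ))⌋₊).filter Nat.Prime, (1 - (h m k : ℝ) / q)) / M k

/-- the pattern -/
noncomputable def hh (m k : ℕ) (i : Fin (h m k)) : ℕ := e m k i - m

theorem hh_bd (m k : ℕ) (i : Fin (h m k)) : m < e m k i ∧ e m k i ≤ m + k ∧ 1 ≤ hh m k i ∧ hh m k i ≤ k := by
  obtain ⟨⟨h1, h2⟩, -⟩ := mem_free.1 (e_mem m k i)
  unfold hh
  omega

theorem M_gt {k : ℕ} (hk : 3 ≤ k) : k < M k := by
  obtain ⟨p, hp, h1, h2⟩ := Nat.exists_prime_lt_and_le_two_mul (k / 2) (by omega)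
  have hpk : p ≤ k := by omega
  have h2k : 2 ∣ M k := (dvd_M Nat.prime_two).2 (by omega)
  have h3k : 3 ∣ M k := (dvd_M Nat.prime_three).2 (by omega)
  have hpM : p ∣ M k := (dvd_M hp).2 hpk
  have hM := M_pos k
  rcases Nat.lt_or_ge p 3 with hp3 | hp3
  · have : k ≤ 3 := by omega
    have h6 : 6 ∣ M k := by
      have := Nat.Coprime.mul_dvd_of_dvd_of_dvd (by norm_num : Nat.Coprime 2 3) h2k h3k
      exact this
    have := Nat.le_of_dvd hM h6
    omega
  · have hc : Nat.Coprime 2 p := by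
      rw [Nat.coprime_primes Nat.prime_two hp]
      omega
    have := Nat.le_of_dvd hM (hc.mul_dvd_of_dvd_of_dvd h2k hpM)
    omega

theorem h_le (m k : ℕ) : h m k ≤ k := by
  classical
  have h1 : (free m k).card ≤ (Ioc m (m + k)).card := by
    apply card_le_card
    intro j hj
    rw [mem_Ioc]
    exact (mem_free.1 hj).1
  rw [Nat.card_Ioc] at h1
  have h2 : h m k = (free m k).card := rfl
  omega

theorem pat {m k : ℕ} (hh0 : 0 < h m k) : Pool.Agent.Y879.GL.Pat k (M k) (m % M k) (hh m k) where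
  hM := M_pos k
  hc := Nat.mod_lt _ (M_pos k)
  hk := hh0
  hkP := h_le m k
  hpr := fun p hp => dvd_M hp
  cop := by
    intro i
    obtain ⟨h1, -, -, -⟩ := hh_bd m k i
    have h2 := coprime_M (e_mem m k i)
    have h3 : e m k i = (m % M k + hh m k i) + M k * (m / M k) := by
      have := Nat.mod_add_div m (M k)
      unfold hh
      omega
    rw [h3] at h2
    exact (Nat.coprime_add_mul_left_right _ _ _).1 h2
  inj := by
    intro i j hij
    obtain ⟨h1, -, -, -⟩ := hh_bd m k i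
    obtain ⟨h2, -, -, -⟩ := hh_bd m k j
    apply e_inj
    unfold hh at hij
    omega
  dif := by
    intro i j hij p hp hkp hd
    obtain ⟨a1, a2, a3, a4⟩ := hh_bd m k i
    obtain ⟨b1, b2, b3, b4⟩ := hh_bd m k j
    have hne : (hh m k i : ℤ) - hh m k j ≠ 0 := by
      intro h0
      apply hij
      apply e_inj
      unfold hh at h0
      omega
    have := Int.le_of_dvd (abs_pos.2 hne) ((dvd_abs _ _).2 hd)
    have h5 : |(hh m k i : ℤ) - hh m k j| < k := by
      rw [abs_lt]
      omega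
    have h6 : (k : ℤ) < p := by exact_mod_cast hkp
    omega

open Classical in
theorem card_iff {m k N r n : ℕ} (hz : (k : ℝ) ≤ (N : ℝ) ^ (1 / (r : ℝ))) (hn : n % M k = m % M k) :
    R k N r n ≤ h m k ∧ (R k N r n = h m k ↔
      ∀ q : ℕ, q.Prime → (q : ℝ) ≤ (N : ℝ) ^ (1 / (r : ℝ)) → ∀ i, ¬ q ∣ n + hh m k i) := by
  have hB : ((free m k).image (fun j => n + (j - m))).card = h m k := by
    have : (free m k).card = h m k := rfl
    rw [← this]
    apply card_image_of_injOn
    intro a ha b hb hab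
    have ha' := (mem_free.1 ha).1
    have hb' := (mem_free.1 hb).1
    have hab' : n + (a - m) = n + (b - m) := hab
    omega
  have hmod : ∀ p : ℕ, p.Prime → p ≤ k → ∀ t : ℕ, (p ∣ n + t ↔ p ∣ m + t) := by
    intro p hp hpk t
    have h1 : n ≡ m [MOD p] := Nat.ModEq.of_dvd ((dvd_M hp).2 hpk) hn
    exact (h1.add_right t).dvd_iff dvd_rfl
  have hsub : (Ioc n (n + k)).filter (fun l => ∀ q : ℕ, q.Prime → (q : ℝ) ≤ (N : ℝ) ^ (1 / (r : ℝ)) → ¬ q ∣ l) ⊆
      (free m k).image (fun j => n + (j - m)) := by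
    intro l hl
    rw [mem_filter, mem_Ioc] at hl
    rw [mem_image]
    refine ⟨m + (l - n), mem_free.2 ⟨by omega, fun p hp hpk hd => ?_⟩, by omega⟩
    rw [← hmod p hp hpk] at hd
    have e1 : n + (l - n) = l := by omega
    rw [e1] at hd
    have h6 : (p : ℝ) ≤ k := by exact_mod_cast hpk
    exact hl.2 p hp (h6.trans hz) hd
  unfold R
  refine ⟨(card_le_card hsub).trans_eq hB, ?_⟩
  constructor
  · intro H q hq hqN i
    have heq := eq_of_subset_of_card_le hsub (by rw [hB]; exact H.ge)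
    have h1 : n + (e m k i - m) ∈ (free m k).image (fun j => n + (j - m)) := mem_image.2 ⟨_, e_mem m k i, rfl⟩
    rw [← heq, mem_filter] at h1
    exact h1.2 q hq hqN
  · intro H
    rw [← hB]
    congr 1
    refine Subset.antisymm hsub ?_
    intro l hl
    rw [mem_image] at hl
    obtain ⟨j, hj, rfl⟩ := hl
    obtain ⟨i, rfl⟩ := e_surj hj
    rw [mem_filter, mem_Ioc]
    have := (mem_free.1 hj).1
    exact ⟨by omega, fun q hq hqN => H q hq hqN i⟩

/-- **Theorem.** Let `k ≥ 3`, `h_m(k) ≥ 1`, `θ > 0`, `l₀`, `x₀`, `ε > 0`. There is `r₀` such that for all `r ≥ r₀` and all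
large `N`: (1) for `n ≡ m` modulo `M` the window `(n, n + k]` contains at most `h_m(k)` integers without prime
factors `≤ N ^ (1 / r)`, and if `n ≤ N` is full, these integers have at most `r` prime factors; `V > 0`; (2) in EVERY
interval `(u, u + Y]` with `Y ≥ N ^ θ`, `u ≥ M`, and for all `l`, `T` with `l ≤ l₀` or `T V ≤ x₀` the number of the full
`n` with fewer than `l` full integers in `[n - T, n)` is `Y V ∑_{j < l} e ^ (-T V) (T V) ^ j / j!` up to at most
`ε Y V`. -/
theorem result (m k : ℕ) (hk : 3 ≤ k) (hh0 : 0 < h m k) (θ : ℝ) (hθ : 0 < θ) (l₀ : ℕ) (x₀ ε : ℝ) (hε : 0 < ε) :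
    ∃ r₀ : ℕ, 2 ≤ r₀ ∧ ∀ r : ℕ, r₀ ≤ r → ∃ N₀ : ℕ, ∀ N : ℕ, N₀ ≤ N →
      (∀ n : ℕ, n % M k = m % M k → R k N r n ≤ h m k) ∧
      (∀ n : ℕ, n ≤ N → Full m k N r n → ∀ l : ℕ, n < l → l ≤ n + k →
        (∀ q : ℕ, q.Prime → (q : ℝ) ≤ (N : ℝ) ^ (1 / (r : ℝ)) → ¬ q ∣ l) → l.primeFactorsList.length ≤ r) ∧
      0 < V m k N r ∧
      ∀ u Y : ℕ, M k ≤ u → (N : ℝ) ^ θ ≤ Y → ∀ l T : ℕ, (l ≤ l₀ ∨ T * V m k N r ≤ x₀) →
        |(GS m k N r l T u Y : ℝ) - Y * V m k N r *
          ∑ j ∈ range l, Real.exp (-(T * V m k N r)) * (T * V m k N r) ^ j / j.factorial| ≤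
        ε * (Y * V m k N r) := by
  classical
  obtain ⟨r₀, hr₀, H⟩ := Pool.Agent.V11237.LP.Pt.short (pat hh0)
    (fun i => lt_of_le_of_lt (hh_bd m k i).2.2.2 (M_gt hk)) θ hθ l₀ x₀ ε hε
  refine ⟨r₀, hr₀, fun r hr => ?_⟩
  obtain ⟨N₀, H⟩ := H r hr
  have hr0 : (0 : ℝ) < 1 / (r : ℝ) := by
    have : 0 < r := by omega
    positivity
  have hz : ∀ᶠ N : ℕ in Filter.atTop, (k : ℝ) ≤ (N : ℝ) ^ (1 / (r : ℝ)) :=
    ((tendsto_rpow_atTop hr0).comp tendsto_natCast_atTop_atTop).eventually (Filter.eventually_ge_atTop _)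
  obtain ⟨N₁, hz⟩ := Filter.eventually_atTop.1 hz
  refine ⟨max N₀ N₁, fun N hN => ?_⟩
  obtain ⟨⟨H1, H2⟩, H3⟩ := H N ((le_max_left _ _).trans hN)
  have hzN := hz N ((le_max_right _ _).trans hN)
  have hV : Pool.Agent.V11237.LP.Pt.V k (M k) (h m k) N r = V m k N r := rfl
  rw [hV] at H2 H3
  have hgood : ∀ n, Full m k N r n ↔ Pool.Agent.V11237.LP.Pt.Good (M k) (m % M k) (hh m k) N r n := by
    intro n
    unfold Full Pool.Agent.V11237.LP.Pt.Good
    exact and_congr_right fun hn => (card_iff hzN hn).2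
  refine ⟨fun n hn => (card_iff hzN hn).1, ?_, H2, ?_⟩
  · intro n hnN hF l hl1 hl2 hl
    have hn := hF.1
    have hg := (hgood n).1 hF
    have hj : m + (l - n) ∈ free m k := by
      refine mem_free.2 ⟨by omega, fun p hp hpk hd => ?_⟩
      have h1 : n ≡ m [MOD p] := Nat.ModEq.of_dvd ((dvd_M hp).2 hpk) hn
      have h2 : p ∣ n + (l - n) := ((h1.add_right (l - n)).dvd_iff dvd_rfl).2 hd
      have e1 : n + (l - n) = l := by omega
      rw [e1] at h2
      have h6 : (p : ℝ) ≤ k := by exact_mod_cast hpk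
      exact hl p hp (h6.trans hzN) h2
    obtain ⟨i, hi⟩ := e_surj hj
    have h7 := H1 n hnN hg i
    have e2 : n + hh m k i = l := by
      unfold hh
      rw [hi]
      omega
    rwa [e2] at h7
  · intro u Y hu hY l T hlT
    have h8 := H3 u Y hu hY l T hlT
    have hGS : GS m k N r l T u Y = Pool.Agent.V11237.LP.Pt.GS (M k) (m % M k) (hh m k) N r l T u Y := by
      unfold GS Pool.Agent.V11237.LP.Pt.GS
      simp only [hgood]
    rw [hGS]
    exact h8

end Pool.Agent.Results.MP_cbf366_nt.ShortIntervalLaws
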